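import Mathlib
import Pool.Agent.H560.SI.Stm

/-!
# Almost primes with both parities in short intervals over `F_q[X]`, `q` even: assembly
-/

set_option autoImplicit false

namespace Pool.Agent.H97.SI

open Polynomial
open scoped Classical
open Pool.Agent.H985.Chow (mob)
open Pool.Agent.H985.Par (Sft)
open Pool.Agent.H694.Typ (Mn Irn PU mem_Mn card_Mn mem_Irn mem_PU irn_ge pol pol_inj pol_degree
  exists_pol card_dvd_e)
open Pool.Agent.H560.SI

section basic
variable {K : Type} [Field K]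

theorem mob_cases (f : K[X]) : mob f = 1 ∨ mob f = -1 ∨ (mob f = 0 ∧ ¬ Squarefree f) := by
  unfold mob
  split_ifs with h
  · rcases neg_one_pow_eq_or ℤ (Multiset.card (UniqueFactorizationMonoid.factors f)) with h1 | h1
    · exact Or.inl h1
    · exact Or.inr (Or.inl h1)
  · exact Or.inr (Or.inr ⟨rfl, h⟩)

theorem mob_abs (f : K[X]) : |(mob f : ℝ)| ≤ 1 := by
  rcases mob_cases f with h | h | ⟨h, -⟩ <;> rw [h] <;> norm_num

variable [Fintype K]

/-- the polynomials of degree less than `L` -/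
noncomputable def Tn (K : Type) [Field K] [Fintype K] (L : ℕ) : Finset K[X] :=
  Finset.univ.image (pol : (Fin L → K) → K[X])

theorem mem_Tn {L : ℕ} {t : K[X]} : t ∈ Tn K L ↔ t.degree < (L : WithBot ℕ) := by
  unfold Tn
  rw [Finset.mem_image]
  constructor
  · rintro ⟨c, -, rfl⟩
    exact pol_degree c
  · intro h
    obtain ⟨c, hc⟩ := exists_pol h
    exact ⟨c, Finset.mem_univ _, hc⟩

theorem card_Tn (L : ℕ) : (Tn K L).card = Fintype.card K ^ L := by
  unfold Tn
  rw [Finset.card_image_of_injective _ pol_inj, Finset.card_univ, Fintype.card_fun,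
    Fintype.card_fin]

theorem card_class {L : ℕ} {P r : K[X]} (hP : P.Monic) (hL : P.natDegree ≤ L)
    (hr : r.degree < P.degree) :
    ((Tn K L).filter (fun t => P ∣ t - r)).card ≤ Fintype.card K ^ (L - P.natDegree) := by
  rw [← card_Tn]
  refine Finset.card_le_card_of_surjOn (fun v => r + P * v) ?_
  intro t ht
  rw [Finset.mem_coe, Finset.mem_filter, mem_Tn] at ht
  obtain ⟨h1, v, hv⟩ := ht
  refine ⟨v, ?_, by show r + P * v = t; rw [← hv]; ring⟩
  rw [Finset.mem_coe, mem_Tn]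
  by_cases hv0 : v = 0
  · rw [hv0, degree_zero]
    exact WithBot.bot_lt_coe _
  · have h2 : (t - r).degree < (L : WithBot ℕ) := by
      refine lt_of_le_of_lt (degree_sub_le _ _) (max_lt h1 (lt_of_lt_of_le hr ?_))
      rw [degree_eq_natDegree hP.ne_zero]
      exact_mod_cast hL
    rw [hv, degree_eq_natDegree (mul_ne_zero hP.ne_zero hv0), hP.natDegree_mul' hv0] at h2
    rw [degree_eq_natDegree hv0]
    have h3 : P.natDegree + v.natDegree < L := by exact_mod_cast h2
    exact_mod_cast (by omega : v.natDegree < L - P.natDegree)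

end basic

/-- the window of `F` -/
theorem window (hr : S_rtc) {K : Type} [Field K] [Fintype K] [CharP K 2] {A : ℕ}
    (hA : ∀ (L m : ℕ) (Ps : Finset K[X]) (Ω : K[X] → Finset K[X]) (M a₀ : K[X]),
      1 ≤ m → A * m ≤ L →
      (∀ P ∈ Ps, P.Monic ∧ Irreducible P ∧ P.natDegree ≤ m ∧ IsCoprime M P) →
      (∀ P ∈ Ps, (Ω P).card ≤ 1 ∧ (Ω P).card < Fintype.card K ^ P.natDegree ∧
        ∀ r ∈ Ω P, r.degree < P.degree) →
      let Sif : Set K[X] := {u | u.degree < (L : WithBot ℕ) ∧
        ∀ P ∈ Ps, ∀ r ∈ Ω P, ¬ P ∣ a₀ + M * u - r}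
      let V : ℝ := ∏ P ∈ Ps, (1 - ((Ω P).card : ℝ) / (Fintype.card K : ℝ) ^ P.natDegree)
      (1 - 1 / 8) * V * (Fintype.card K : ℝ) ^ L ≤ Sif.ncard ∧
      (Sif.ncard : ℝ) ≤ (1 + 1 / 8) * V * (Fintype.card K : ℝ) ^ L ∧
      ∀ (F : K[X] → ℝ) (B : ℝ), (∀ u, |F u| ≤ 1) → 0 ≤ B →
        (∀ (D r : K[X]) (L' : ℕ), D.Monic → D ∣ ∏ P ∈ Ps, P → D.natDegree + L' = L →
          D.natDegree ≤ A * m → r.degree < D.degree →
          |∑ᶠ v ∈ {v : K[X] | v.degree < (L' : WithBot ℕ)}, F (r + D * v)| ≤ B) →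
        |∑ᶠ u ∈ Sif, F u| ≤ 1 / 8 * V * (Fintype.card K : ℝ) ^ L +
          2 * (((1 : ℕ) + 1 : ℝ) * Fintype.card K) ^ (A * m) * B)
    {n u L N z : ℕ} {m s F : K[X]} {B V : ℝ}
    (hL : u + 2 * L ≤ n) (hu1 : L / 8 < u) (hz1 : 1 ≤ z) (hzu : z < u)
    (hz2 : A * z ≤ L) (hm : m.Monic) (hmi : Irreducible m) (hmd : m.natDegree = u)
    (hs : s.Monic) (hsd : s.natDegree = N) (hss : Smt (L / 8) s) (hF : F.Monic)
    (hFd : F.natDegree = n) (hFs : derivative (m * F) = s ^ 2) (hB0 : 0 ≤ B)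
    (hB : ∀ (F' D : K[X]) (L' : ℕ), F'.Monic → F'.natDegree = n →
      derivative (m * F') = s ^ 2 → D.Monic → D.natDegree ≤ A * z → D.natDegree + L' = L →
      |∑ᶠ v ∈ {v : K[X] | v.degree < (L' : WithBot ℕ)}, (mob (F' + m * (D * v) ^ 2) : ℝ)| ≤ B)
    (hV : V = ∏ P ∈ PU K z, (1 - 1 / (Fintype.card K : ℝ) ^ P.natDegree))
    (hV1 : 2 * ((2 : ℝ) * Fintype.card K) ^ (A * z) * B ≤ 1 / 8 * V * (Fintype.card K : ℝ) ^ L)
    (hV2 : (N : ℝ) * (Fintype.card K : ℝ) ^ (L - z) ≤ 1 / 8 * V * (Fintype.card K : ℝ) ^ L)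
    {σ : ℤ} (hσ : σ = 1 ∨ σ = -1) :
    1 / 4 * V * (Fintype.card K : ℝ) ^ L ≤
      ((Tn K L).filter (fun t => mob (F + m * t ^ 2) = σ ∧ Sft z (F + m * t ^ 2))).card := by
  have hq : 2 ≤ Fintype.card K := Fintype.one_lt_card
  -- the classes
  have hPm : ∀ P ∈ PU K z, P ≠ m := by
    intro P hP h
    have := (mem_PU.1 hP).2.2
    rw [h, hmd] at this
    omega
  have hex : ∀ P : K[X], ∃ r : K[X], (P ∈ PU K z → r.degree < P.degree ∧
      ∀ t : K[X], P ∣ F + m * t ^ 2 ↔ P ∣ t - r) := by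
    intro P
    by_cases hP : P ∈ PU K z
    · obtain ⟨r, h1, h2⟩ := hr K m F P hm hmi (mem_PU.1 hP).1 (mem_PU.1 hP).2.1 (hPm P hP)
      exact ⟨r, fun _ => ⟨h1, h2⟩⟩
    · exact ⟨0, fun h => absurd h hP⟩
  choose rP hrP using hex
  have key := hA L z (PU K z) (fun P => {rP P}) 1 0 hz1 hz2
    (fun P hP => ⟨(mem_PU.1 hP).1, (mem_PU.1 hP).2.1, (mem_PU.1 hP).2.2, isCoprime_one_left⟩)
    (fun P hP => by
      refine ⟨by rw [Finset.card_singleton], ?_, ?_⟩
      · rw [Finset.card_singleton]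
        have h1 : 1 ≤ P.natDegree := (mem_PU.1 hP).2.1.natDegree_pos
        calc 1 < Fintype.card K := hq
          _ = Fintype.card K ^ 1 := (pow_one _).symm
          _ ≤ Fintype.card K ^ P.natDegree := Nat.pow_le_pow_right (by omega) h1
      · intro r hr'
        rw [Finset.mem_singleton] at hr'
        rw [hr']
        exact (hrP P hP).1)
  simp only [Finset.card_singleton, Nat.cast_one] at key
  -- the sifted set
  set W : Finset K[X] := (Tn K L).filter (fun t => Sft z (F + m * t ^ 2)) with hW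
  have hsif : {u : K[X] | u.degree < (L : WithBot ℕ) ∧
      ∀ P ∈ PU K z, ∀ r ∈ ({rP P} : Finset K[X]), ¬ P ∣ 0 + 1 * u - r} = (W : Set K[X]) := by
    ext t
    rw [hW, Finset.coe_filter]
    simp only [Set.mem_ofPred_eq, mem_Tn, Finset.mem_singleton, forall_eq, zero_add, one_mul]
    refine and_congr_right fun _ => ?_
    constructor
    · intro h P hP1 hP2 hP3
      by_contra hlt
      have hP : P ∈ PU K z := mem_PU.2 ⟨hP1, hP2, not_lt.1 hlt⟩
      exact h P hP (((hrP P hP).2 t).1 hP3)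
    · intro h P hP hd
      have h1 := h P (mem_PU.1 hP).1 (mem_PU.1 hP).2.1 (((hrP P hP).2 t).2 hd)
      have h2 := (mem_PU.1 hP).2.2
      omega
  rw [hsif, Set.ncard_coe_finset] at key
  rw [← hV] at key
  obtain ⟨k1, -, k3⟩ := key
  have k4 := k3 (fun t => (mob (F + m * t ^ 2) : ℝ)) B (fun t => mob_abs _) hB0 (by
    intro D r L' hD _ hDL hDA hrD
    have hrm : (m * r ^ 2).degree < F.degree := by
      by_cases hr0 : r = 0
      · rw [hr0, zero_pow (by norm_num), mul_zero, degree_zero, degree_eq_natDegree hF.ne_zero]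
        exact WithBot.bot_lt_coe _
      · have h1 : r.natDegree < D.natDegree := natDegree_lt_natDegree hr0 hrD
        rw [degree_eq_natDegree hF.ne_zero, hFd,
          degree_eq_natDegree (mul_ne_zero hm.ne_zero (pow_ne_zero 2 hr0)),
          hm.natDegree_mul' (pow_ne_zero 2 hr0), natDegree_pow, hmd]
        exact_mod_cast (by omega : u + 2 * r.natDegree < n)
    have hF' : (F + m * r ^ 2).Monic := hF.add_of_left hrm
    have hFd' : (F + m * r ^ 2).natDegree = n := by
      rw [natDegree_add_eq_left_of_degree_lt hrm, hFd]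
    have hFs' : derivative (m * (F + m * r ^ 2)) = s ^ 2 := by
      have e : m * (F + m * r ^ 2) = m * F + (m * r) ^ 2 := by ring
      rw [e, derivative_add, hFs, derivative_pow]
      simp [CharTwo.two_eq_zero]
    have h2 := hB (F + m * r ^ 2) D L' hF' hFd' hFs' hD hDA hDL
    have e2 : ∀ v : K[X], F + m * (r + D * v) ^ 2 = F + m * r ^ 2 + m * (D * v) ^ 2 := by
      intro v
      rw [CharTwo.add_sq]
      ring
    simp only [e2]
    exact h2)
  rw [finsum_mem_coe_finset] at k4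
  have k5 : (((1 : ℕ) + 1 : ℝ) * Fintype.card K) = (2 : ℝ) * Fintype.card K := by norm_num
  have k6 : |∑ t ∈ W, (mob (F + m * t ^ 2) : ℝ)| ≤
      1 / 4 * V * (Fintype.card K : ℝ) ^ L := by
    refine k4.trans ?_
    norm_num at hV1 ⊢
    linarith
  -- the three parts
  set Wσ : Finset K[X] := W.filter (fun t => mob (F + m * t ^ 2) = σ) with hWσ
  set W' : Finset K[X] := W.filter (fun t => mob (F + m * t ^ 2) = -σ) with hW'
  set W0 : Finset K[X] := W.filter (fun t => mob (F + m * t ^ 2) = 0) with hW0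
  have hσ0 : σ ≠ 0 := by rcases hσ with h | h <;> rw [h] <;> norm_num
  have hσσ : σ * σ = 1 := by rcases hσ with h | h <;> rw [h] <;> norm_num
  have hcases : ∀ t : K[X], mob (F + m * t ^ 2) = σ ∨ mob (F + m * t ^ 2) = -σ ∨
      mob (F + m * t ^ 2) = 0 := by
    intro t
    rcases mob_cases (F + m * t ^ 2) with h | h | ⟨h, -⟩ <;> rcases hσ with h' | h' <;>
      rw [h, h'] <;> norm_num
  have hi : ∀ t : K[X], (1 : ℝ) = (if mob (F + m * t ^ 2) = σ then (1 : ℝ) else 0) +
      (if mob (F + m * t ^ 2) = -σ then (1 : ℝ) else 0) +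
      (if mob (F + m * t ^ 2) = 0 then (1 : ℝ) else 0) := by
    intro t
    have h1 : σ ≠ -σ := fun h => hσ0 (by omega)
    have h2 : -σ ≠ 0 := by omega
    rcases hcases t with h | h | h
    · rw [h, if_pos rfl, if_neg h1, if_neg hσ0]
      norm_num
    · rw [h, if_pos rfl, if_neg h1.symm, if_neg h2]
      norm_num
    · rw [h, if_pos rfl, if_neg hσ0.symm, if_neg h2.symm]
      norm_num
  have hj : ∀ t : K[X], (mob (F + m * t ^ 2) : ℝ) =
      (σ : ℝ) * ((if mob (F + m * t ^ 2) = σ then (1 : ℝ) else 0) -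
      (if mob (F + m * t ^ 2) = -σ then (1 : ℝ) else 0)) := by
    intro t
    have h1 : σ ≠ -σ := fun h => hσ0 (by omega)
    have h2 : -σ ≠ 0 := by omega
    rcases hcases t with h | h | h
    · rw [h, if_pos rfl, if_neg h1]
      ring
    · rw [h, if_pos rfl, if_neg h1.symm]
      push_cast
      ring
    · rw [h, if_neg hσ0.symm, if_neg h2.symm]
      push_cast
      ring
  have s1 : (W.card : ℝ) = (Wσ.card : ℝ) + W'.card + W0.card := by
    rw [hWσ, hW', hW0, Finset.card_eq_sum_ones, Finset.card_filter, Finset.card_filter,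
      Finset.card_filter]
    push_cast
    rw [← Finset.sum_add_distrib, ← Finset.sum_add_distrib]
    exact Finset.sum_congr rfl fun t _ => hi t
  have s2 : ∑ t ∈ W, (mob (F + m * t ^ 2) : ℝ) = (σ : ℝ) * ((Wσ.card : ℝ) - W'.card) := by
    rw [hWσ, hW', Finset.card_filter, Finset.card_filter]
    push_cast
    rw [← Finset.sum_sub_distrib, Finset.mul_sum]
    exact Finset.sum_congr rfl fun t _ => hj t
  have s3 : |(Wσ.card : ℝ) - W'.card| ≤ 1 / 4 * V * (Fintype.card K : ℝ) ^ L := by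
    rw [s2, abs_mul] at k6
    have h1 : |(σ : ℝ)| = 1 := by rcases hσ with h | h <;> rw [h] <;> norm_num
    rwa [h1, one_mul] at k6
  -- the part with square factors
  have s4 : (W0.card : ℝ) ≤ 1 / 8 * V * (Fintype.card K : ℝ) ^ L := by
    refine le_trans ?_ hV2
    have hsub : W0 ⊆ ((PU K L).filter (fun P => P ∣ s ∧ z < P.natDegree ∧ P.natDegree ≤ L / 8)).biUnion
        (fun P => (Tn K L).filter (fun t => P ∣ F + m * t ^ 2)) := by
      intro t ht
      rw [hW0, Finset.mem_filter, hW, Finset.mem_filter] at ht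
      obtain ⟨⟨h1, h2⟩, h3⟩ := ht
      have h4 : ¬ Squarefree (F + m * t ^ 2) := by
        rcases mob_cases (F + m * t ^ 2) with h | h | ⟨-, h⟩
        · rw [h3] at h; norm_num at h
        · rw [h3] at h; norm_num at h
        · exact h
      have hne : F + m * t ^ 2 ≠ 0 := by
        rw [mem_Tn] at h1
        have hdeg : (m * t ^ 2).degree < F.degree := by
          by_cases ht0 : t = 0
          · rw [ht0, zero_pow (by norm_num), mul_zero, degree_zero,
              degree_eq_natDegree hF.ne_zero]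
            exact WithBot.bot_lt_coe _
          · rw [degree_eq_natDegree ht0] at h1
            have h1' : t.natDegree < L := by exact_mod_cast h1
            rw [degree_eq_natDegree hF.ne_zero, hFd,
              degree_eq_natDegree (mul_ne_zero hm.ne_zero (pow_ne_zero 2 ht0)),
              hm.natDegree_mul' (pow_ne_zero 2 ht0), natDegree_pow, hmd]
            exact_mod_cast (by omega : u + 2 * t.natDegree < n)
        exact (hF.add_of_left hdeg).ne_zero
      rw [squarefree_iff_irreducible_sq_not_dvd_of_ne_zero hne] at h4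
      push Not at h4
      obtain ⟨Q, hQ, hQ2⟩ := h4
      have hlc : Q.leadingCoeff ≠ 0 := mt leadingCoeff_eq_zero.1 hQ.ne_zero
      set P := Q * C Q.leadingCoeff⁻¹ with hP
      have hPm' : P.Monic := monic_mul_leadingCoeff_inv hQ.ne_zero
      have hassoc : Associated Q P := by
        have hu : IsUnit (C Q.leadingCoeff⁻¹) :=
          isUnit_C.2 (isUnit_iff_ne_zero.2 (inv_ne_zero hlc))
        exact associated_mul_unit_right Q _ hu
      have hPi : Irreducible P := hassoc.irreducible hQ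
      have hP2 : P * P ∣ F + m * t ^ 2 := by
        refine dvd_trans ?_ hQ2
        exact (hassoc.symm.mul_mul hassoc.symm).dvd
      have hPs : P ∣ s := by
        have e1 : derivative (m * (F + m * t ^ 2)) = s ^ 2 := by
          have e : m * (F + m * t ^ 2) = m * F + (m * t) ^ 2 := by ring
          rw [e, derivative_add, hFs, derivative_pow]
          simp [CharTwo.two_eq_zero]
        obtain ⟨c, hc⟩ := hP2
        have e2 : m * (F + m * t ^ 2) = P * P * (m * c) := by rw [hc]; ring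
        rw [e2, derivative_mul, derivative_mul] at e1
        refine hPi.prime.dvd_of_dvd_pow (n := 2) ?_
        rw [← e1]
        refine dvd_add (Dvd.dvd.mul_right ?_ _) (Dvd.dvd.mul_right ?_ _)
        · exact dvd_add (dvd_mul_left _ _) (dvd_mul_right _ _)
        · exact dvd_mul_right _ _
      rw [Finset.mem_biUnion]
      refine ⟨P, ?_, ?_⟩
      · have h5 := hss P hPm' hPi hPs
        rw [Finset.mem_filter]
        refine ⟨mem_PU.2 ⟨hPm', hPi, by omega⟩, hPs, ?_, h5⟩
        exact h2 P hPm' hPi ((dvd_mul_right P P).trans hP2)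
      · rw [Finset.mem_filter]
        exact ⟨h1, (dvd_mul_right P P).trans hP2⟩
    have hc1 : W0.card ≤ ∑ P ∈ (PU K L).filter
        (fun P => P ∣ s ∧ z < P.natDegree ∧ P.natDegree ≤ L / 8), Fintype.card K ^ (L - z) := by
      refine (Finset.card_le_card hsub).trans (Finset.card_biUnion_le.trans
        (Finset.sum_le_sum fun P hP => ?_))
      rw [Finset.mem_filter] at hP
      obtain ⟨h1, h2, h3, h4⟩ := hP
      have hP' := mem_PU.1 h1
      have hne : P ≠ m := by
        intro h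
        rw [h, hmd] at h4
        omega
      obtain ⟨r, hr1, hr2⟩ := hr K m F P hm hmi hP'.1 hP'.2.1 hne
      simp only [hr2]
      refine (card_class hP'.1 (by omega) hr1).trans ?_
      exact Nat.pow_le_pow_right (by omega) (by omega)
    rw [Finset.sum_const, smul_eq_mul] at hc1
    have hc2 : ((PU K L).filter
        (fun P => P ∣ s ∧ z < P.natDegree ∧ P.natDegree ≤ L / 8)).card ≤ N := by
      rw [← hsd]
      refine le_trans (Finset.card_le_card ?_) (card_dvd_e L hs.ne_zero)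
      intro P hP
      rw [Finset.mem_filter] at hP ⊢
      exact ⟨hP.1, hP.2.1⟩
    have hc3 : W0.card ≤ N * Fintype.card K ^ (L - z) :=
      hc1.trans (Nat.mul_le_mul_right _ hc2)
    exact_mod_cast hc3
  have hWσ' : Wσ = (Tn K L).filter
      (fun t => mob (F + m * t ^ 2) = σ ∧ Sft z (F + m * t ^ 2)) := by
    rw [hWσ, hW, Finset.filter_filter]
    refine Finset.filter_congr fun t _ => ?_
    tauto
  rw [← hWσ']
  have s5 := abs_le.1 s3
  linarith [s5.1, s5.2]

/-- the window of `F` gives polynomials of the interval -/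
theorem fibres {K : Type} [Field K] [Fintype K] [CharP K 2] {n u L : ℕ} {m g : K[X]}
    (hL : u + 2 * L ≤ n) (hm : m.Monic) (hmd : m.natDegree = u)
    (Sm : Finset K[X]) (Fs : K[X] → K[X]) (p : K[X] → Prop) (Y : ℝ)
    (hFs : ∀ s ∈ Sm, Fs s ∈ Itv K n (u + 2 * L) g ∧ derivative (m * Fs s) = s ^ 2)
    (hY : ∀ s ∈ Sm, Y ≤ ((Tn K L).filter (fun t => p (Fs s + m * t ^ 2))).card) :
    (Sm.card : ℝ) * Y ≤ ((Itv K n (u + 2 * L) g).filter p).card := by
  have h1 : (Sm.card : ℝ) * Y ≤
      ∑ s ∈ Sm, (((Tn K L).filter (fun t => p (Fs s + m * t ^ 2))).card : ℝ) := by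
    rw [← nsmul_eq_mul, ← Finset.sum_const]
    exact Finset.sum_le_sum hY
  refine h1.trans ?_
  have h2 : (Sm.sigma fun s => (Tn K L).filter (fun t => p (Fs s + m * t ^ 2))).card ≤
      ((Itv K n (u + 2 * L) g).filter p).card := by
    refine Finset.card_le_card_of_injOn (fun x => Fs x.1 + m * x.2 ^ 2) ?_ ?_
    · rintro ⟨s, t⟩ hx
      rw [Finset.mem_coe, Finset.mem_sigma] at hx
      obtain ⟨hs, ht⟩ := hx
      simp only at hs ht
      rw [Finset.mem_filter, mem_Tn] at ht
      rw [Finset.mem_coe, Finset.mem_filter]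
      refine ⟨?_, ht.2⟩
      have h3 := (hFs s hs).1
      unfold Itv at h3 ⊢
      rw [Finset.mem_filter, mem_Mn] at h3
      rw [Finset.mem_filter, mem_Mn]
      obtain ⟨⟨h4, h5⟩, h6⟩ := h3
      have h7 : (m * t ^ 2).degree < ((u + 2 * L : ℕ) : WithBot ℕ) := by
        by_cases ht0 : t = 0
        · rw [ht0, zero_pow (by norm_num), mul_zero, degree_zero]
          exact WithBot.bot_lt_coe _
        · have h8 := ht.1
          rw [degree_eq_natDegree ht0] at h8
          have h1' : t.natDegree < L := by exact_mod_cast h8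
          rw [degree_eq_natDegree (mul_ne_zero hm.ne_zero (pow_ne_zero 2 ht0)),
            hm.natDegree_mul' (pow_ne_zero 2 ht0), natDegree_pow, hmd]
          exact_mod_cast (by omega : u + 2 * t.natDegree < u + 2 * L)
      have h8 : (m * t ^ 2).degree < (Fs s).degree := by
        refine lt_of_lt_of_le h7 ?_
        rw [degree_eq_natDegree h4.ne_zero, h5]
        exact_mod_cast hL
      refine ⟨⟨h4.add_of_left h8, ?_⟩, ?_⟩
      · rw [natDegree_add_eq_left_of_degree_lt h8, h5]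
      · have e : Fs s + m * t ^ 2 - g = (Fs s - g) + m * t ^ 2 := by ring
        rw [e]
        exact lt_of_le_of_lt (degree_add_le _ _) (max_lt h6 h7)
    · rintro ⟨s, t⟩ hx ⟨s', t'⟩ hx' he
      rw [Finset.mem_coe, Finset.mem_sigma] at hx hx'
      simp only at hx hx' he
      have e1 : ∀ s ∈ Sm, ∀ t : K[X], derivative (m * (Fs s + m * t ^ 2)) = s ^ 2 := by
        intro s hs t
        have e : m * (Fs s + m * t ^ 2) = m * Fs s + (m * t) ^ 2 := by ring
        rw [e, derivative_add, (hFs s hs).2, derivative_pow]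
        simp [CharTwo.two_eq_zero]
      have e2 : ∀ a b : K[X], a ^ 2 = b ^ 2 → a = b := by
        intro a b hab
        have : (a - b) ^ 2 = 0 := by
          rw [CharTwo.sub_eq_add, CharTwo.add_sq, hab, CharTwo.add_self_eq_zero]
        exact sub_eq_zero.1 (pow_eq_zero_iff (two_ne_zero)|>.1 this)
      have hss : s = s' := by
        apply e2
        rw [← e1 s hx.1 t, ← e1 s' hx'.1 t', he]
      subst hss
      have htt : t = t' := by
        apply e2
        exact mul_left_cancel₀ hm.ne_zero (add_left_cancel he)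
      rw [htt]
  rw [Finset.card_sigma] at h2
  exact_mod_cast h2

/-- the parameters -/
theorem nums {θ lam : ℝ} (h1 : 1 / 3 < θ) (h2 : θ ≤ 1 / 2) (hlam : lam = (3 * θ - 1) / 8) {n : ℕ}
    (hn : 100 ≤ lam * n) : ∃ L u N : ℕ, n + u = 2 * N + 1 ∧ u + 2 * L ≤ n ∧
      ((u + 2 * L : ℕ) : ℝ) ≤ θ * n ∧ L < 8 * u ∧ L / 8 < u ∧ n < 4 * u ∧ 1 ≤ L ∧
      lam / 2 * n ≤ (L : ℝ) ∧ u + L ≤ N ∧ (1 / 2 + lam / 2) * N ≤ ((u + L : ℕ) : ℝ) ∧
      lam / 10 * N ≤ ((L / 8 : ℕ) : ℝ) := by
  have hn0 : (0 : ℝ) ≤ n := Nat.cast_nonneg n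
  have hlam0 : 0 < lam := by rw [hlam]; linarith
  have hlam1 : lam ≤ 1 / 16 := by rw [hlam]; linarith
  have hlamn1 : lam * n ≤ 1 / 16 * n := mul_le_mul_of_nonneg_right hlam1 hn0
  have hn1 : (1600 : ℝ) ≤ n := by linarith
  have hθ8 : θ = (8 * lam + 1) / 3 := by rw [hlam]; ring
  have hθn' : θ * n = (8 * (lam * n) + n) / 3 := by rw [hθ8]; ring
  have hθn : 0 ≤ θ * n := by rw [hθn']; linarith
  set k₀ := ⌊θ * n⌋₊ with hk
  have hk1 : (k₀ : ℝ) ≤ θ * n := Nat.floor_le hθn
  have hk2 : θ * n < k₀ + 1 := Nat.lt_floor_add_one _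
  set L := ⌊lam * n⌋₊ with hL
  have hL1 : (L : ℝ) ≤ lam * n := Nat.floor_le (by linarith)
  have hL2 : lam * n < L + 1 := Nat.lt_floor_add_one _
  rw [hθn'] at hk1 hk2
  obtain ⟨h0, hh1, hh2, hh3⟩ : ∃ h0 : ℕ, h0 ≤ k₀ ∧ k₀ ≤ h0 + 1 ∧ (n + h0) % 2 = 1 := by
    rcases Nat.mod_two_eq_zero_or_one (n + k₀) with h | h
    · have h3 : 1 ≤ k₀ := by
        have : (0 : ℝ) < k₀ := by linarith
        have : 0 < k₀ := by exact_mod_cast this
        omega
      exact ⟨k₀ - 1, by omega, by omega, by omega⟩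
    · exact ⟨k₀, le_rfl, by omega, h⟩
  have hr1 : (h0 : ℝ) ≤ k₀ := by exact_mod_cast hh1
  have hr2 : (k₀ : ℝ) ≤ h0 + 1 := by exact_mod_cast hh2
  have h2L : 2 * L ≤ h0 := by
    have : (2 * L : ℝ) ≤ h0 := by linarith
    exact_mod_cast this
  obtain ⟨u, hu⟩ : ∃ u, u = h0 - 2 * L := ⟨_, rfl⟩
  have huL : u + 2 * L = h0 := by omega
  have huR : (u : ℝ) + 2 * L = h0 := by exact_mod_cast huL
  obtain ⟨N, hN⟩ : ∃ N, n + u = 2 * N + 1 := ⟨(n + u) / 2, by omega⟩
  have hNR : (n : ℝ) + u = 2 * N + 1 := by exact_mod_cast hN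
  have hh0n : h0 ≤ n := by
    have : (h0 : ℝ) ≤ n := by linarith
    exact_mod_cast this
  have hu8 : L < 8 * u := by
    have : (L : ℝ) < 8 * u := by linarith
    exact_mod_cast this
  have hNn : (N : ℝ) ≤ n := by linarith
  have e1 : lam * N ≤ lam * n := mul_le_mul_of_nonneg_left hNn hlam0.le
  refine ⟨L, u, N, hN, by omega, ?_, hu8, by omega, ?_, ?_, ?_, ?_, ?_, ?_⟩
  · rw [huL, hθn']; linarith
  · have : (n : ℝ) < 4 * u := by linarith
    exact_mod_cast this
  · have : (0 : ℝ) < L := by linarith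
    have : 0 < L := by exact_mod_cast this
    omega
  · linarith
  · have : (h0 : ℝ) + 1 ≤ n := by linarith
    have : h0 + 1 ≤ n := by exact_mod_cast this
    omega
  · push_cast
    have e2 : (1 / 2 + lam / 2) * (N : ℝ) = N / 2 + lam * N / 2 := by ring
    rw [e2]
    linarith
  · have h8 : L < 8 * (L / 8) + 8 := by omega
    have h8' : (L : ℝ) < 8 * ((L / 8 : ℕ) : ℝ) + 8 := by exact_mod_cast h8
    have e2 : lam / 10 * (N : ℝ) = lam * N / 10 := by ring
    rw [e2]
    linarith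

end Pool.Agent.H97.SI
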